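import Pool.Agent.H18VS.Main

/-!
# Ternary multicolour vector space Ramsey numbers have bounded tower height
-/

set_option autoImplicit false

namespace Pool.Agent.Results.MP_d9b8e4_co.BoundedTower

open Pool.Agent.H18VS

/-- For all `t, k ≥ 1` the number `R_3(t; k)` (the least `n` with the Ramsey property) exists and is at
most `twr (t + 4) k`; the height `t + 4` of the tower does not depend on `k`. -/
theorem result : ∀ t k : ℕ, 1 ≤ t → 1 ≤ k →
    ∃ N, IsLeast {n | Arrows (ZMod 3) t k n} N ∧ N ≤ twr (t + 4) k :=
  main

end Pool.Agent.Results.MP_d9b8e4_co.BoundedTower
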